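import Pool.Agent.H1.Rel.Dunwoody

/-!
# Counting relations over bases
-/

open Subgroup

namespace RelNum

/-- The least number of defining relations of `G` on the generators `X`: the least cardinality of a
set of words whose normal closure is the kernel of `F(ι) → G`. -/
noncomputable def relNum {G : Type*} [Group G] {ι : Type*} (X : ι → G) : ℕ∞ :=
  ⨅ (R : Set (FreeGroup ι)) (_ : normalClosure R = (FreeGroup.lift X).ker), R.encard

/-- A basis of `G`: a generating family with `d(G)` members. -/
def IsBasis (G : Type*) [Group G] [Group.FG G] (X : Fin (Group.rank G) → G) : Prop :=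
  closure (Set.range X) = ⊤

/-- The least number of relations over all bases. -/
noncomputable def relMin (G : Type*) [Group G] [Group.FG G] : ℕ∞ :=
  ⨅ (X : Fin (Group.rank G) → G) (_ : IsBasis G X), relNum X

section count

variable {G : Type*} [Group G] {ι : Type} [DecidableEq ι] [Fintype ι]

/-- The map which kills the additional generator. -/
def kill (ι : Type) : FreeGroup (Option ι) →* FreeGroup ι :=
  FreeGroup.lift (fun o => o.elim 1 FreeGroup.of)

lemma kill_surjective : Function.Surjective (kill ι) := by
  intro w
  refine ⟨FreeGroup.map some w, ?_⟩
  have : (kill ι).comp (FreeGroup.map some) = MonoidHom.id _ := by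
    ext i
    simp [kill]
  exact DFunLike.congr_fun this w

lemma lift_ext1 (X : ι → G) : FreeGroup.lift (ext1 X) = (FreeGroup.lift X).comp (kill ι) := by
  ext o
  cases o <;> simp [ext1, kill]

/-- The kernel of the extended map. -/
lemma ker_ext1 (X : ι → G) (R : Set (FreeGroup ι))
    (hR : normalClosure R = (FreeGroup.lift X).ker) :
    normalClosure (FreeGroup.map some '' R ∪ {FreeGroup.of none}) =
      (FreeGroup.lift (ext1 X)).ker := by
  set K := normalClosure (FreeGroup.map some '' R ∪ {FreeGroup.of (none : Option ι)}) with hK
  have hnone : FreeGroup.of (none : Option ι) ∈ K := subset_normalClosure (Or.inr rfl)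
  have hKn : K.Normal := normalClosure_normal
  apply le_antisymm
  · apply normalClosure_le_normal
    rintro _ (⟨r, hr, rfl⟩ | rfl)
    · have h1 : r ∈ (FreeGroup.lift X).ker := hR ▸ subset_normalClosure hr
      change FreeGroup.lift (ext1 X) (FreeGroup.map some r) = 1
      rw [lift_ext1]
      have : (kill ι).comp (FreeGroup.map some) = MonoidHom.id _ := by
        ext i
        simp [kill]
      have h2 : kill ι (FreeGroup.map some r) = r := DFunLike.congr_fun this r
      rw [MonoidHom.comp_apply, h2]
      exact h1
    · change FreeGroup.lift (ext1 X) (FreeGroup.of none) = 1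
      simp [ext1]
  · -- modulo `K` every word equals its image under `map some ∘ kill`
    intro w hw
    have hmod : (QuotientGroup.mk' K).comp ((FreeGroup.map some).comp (kill ι)) =
        QuotientGroup.mk' K := by
      ext o
      cases o with
      | none =>
        simp only [kill, MonoidHom.comp_apply, FreeGroup.lift_apply_of, Option.elim_none, map_one]
        exact ((QuotientGroup.eq_one_iff _).2 hnone).symm
      | some i => simp [kill]
    have h1 : kill ι w ∈ normalClosure R := by
      rw [hR]
      have : FreeGroup.lift (ext1 X) w = 1 := hw
      rw [lift_ext1] at this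
      exact this
    have h2 : FreeGroup.map some (kill ι w) ∈ K := by
      have hle : normalClosure R ≤ K.comap (FreeGroup.map some) := by
        have : (K.comap (FreeGroup.map (some : ι → Option ι))).Normal := inferInstance
        apply normalClosure_le_normal
        intro r hr
        exact subset_normalClosure (Or.inl ⟨r, hr, rfl⟩)
      exact hle h1
    have h3 := DFunLike.congr_fun hmod w
    rw [MonoidHom.comp_apply, MonoidHom.comp_apply] at h3
    have h4 : (QuotientGroup.mk' K) w = 1 := by
      rw [← h3]
      exact (QuotientGroup.eq_one_iff _).2 h2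
    exact (QuotientGroup.eq_one_iff _).1 h4

/-- If `X` and `M` become Nielsen equivalent after appending `1`, then `M` needs at most one more
relation than `X`. -/
lemma relNum_le_of_NE (X M : ι → G) (h : NE (ext1 M) (ext1 X)) : relNum M ≤ relNum X + 1 := by
  unfold relNum
  rw [ENat.iInf_add]
  refine le_iInf fun R => ?_
  rw [ENat.iInf_add]
  refine le_iInf fun hR => ?_
  obtain ⟨α, hα⟩ := h
  -- `lift (ext1 X) = lift (ext1 M) ∘ α`
  let R' : Set (FreeGroup (Option ι)) := FreeGroup.map some '' R ∪ {FreeGroup.of none}
  have hR' : normalClosure R' = (FreeGroup.lift (ext1 X)).ker := ker_ext1 X R hR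
  let R'' : Set (FreeGroup ι) := kill ι '' (α '' R')
  have hker : normalClosure R'' = (FreeGroup.lift M).ker := by
    have h1 : (FreeGroup.lift (ext1 X)).ker =
        (FreeGroup.lift (ext1 M)).ker.comap α.toMonoidHom := by
      rw [hα]; rfl
    have h2 : normalClosure (α '' R') = (FreeGroup.lift (ext1 M)).ker := by
      have h3 := congrArg (Subgroup.map α.toMonoidHom) hR'
      rw [map_normalClosure _ _ α.surjective, h1,
        Subgroup.map_comap_eq_self_of_surjective α.surjective] at h3
      exact h3
    have h4 := congrArg (Subgroup.map (kill ι)) h2
    rw [map_normalClosure _ _ kill_surjective, lift_ext1] at h4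
    change normalClosure (kill ι '' (α '' R')) =
      Subgroup.map (kill ι) ((FreeGroup.lift M).ker.comap (kill ι)) at h4
    rw [Subgroup.map_comap_eq_self_of_surjective kill_surjective] at h4
    exact h4
  refine (iInf₂_le R'' hker).trans ?_
  calc R''.encard ≤ (α '' R').encard := Set.encard_image_le _ _
    _ ≤ R'.encard := Set.encard_image_le _ _
    _ ≤ (FreeGroup.map some '' R).encard + ({FreeGroup.of none} : Set (FreeGroup (Option ι))).encard :=
        Set.encard_union_le _ _
    _ ≤ R.encard + 1 := by
        rw [Set.encard_singleton]
        gcongr
        exact Set.encard_image_le _ _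

end count

end RelNum
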