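import Pool.Agent.H1.Rel.Nielsen

/-!
# Dunwoody's theorem: stable Nielsen equivalence in finite soluble groups
-/

open Subgroup

namespace RelNum

universe u

variable {ι : Type} [DecidableEq ι] [Fintype ι]

/-- Append the entry `1`. -/
def ext1 {G : Type*} [Group G] (g : ι → G) : Option ι → G := fun o => o.elim 1 g

lemma image_ne_none {G : Type*} [Group G] (t : Option ι → G) :
    t '' {j | j ≠ none} = Set.range fun i => t (some i) := by
  ext z
  constructor
  · rintro ⟨j, hj, rfl⟩
    cases j with
    | none => exact absurd rfl hj
    | some i => exact ⟨i, rfl⟩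
  · rintro ⟨i, rfl⟩
    exact ⟨some i, by simp, rfl⟩

section step

variable {G : Type u} [Group G] (N : Subgroup G) [hN : N.Normal]
  (hcomm : ∀ x ∈ N, ∀ y ∈ N, x * y = y * x) (a : G) (ha : a ∈ N)

include hcomm ha in
/-- Multiply the entry `some i` by a conjugate of the entry `none` or its inverse. -/
lemma conj_move (t : Option ι → G) (ht : closure (Set.range t) = ⊤) (hta : t none = a)
    (i : ι) (w z : G) (hz : z = w * a * w⁻¹ ∨ z = (w * a * w⁻¹)⁻¹) :
    NE t (Function.update t (some i) (t (some i) * z)) := by
  set H := closure (t '' {j | j ≠ none}) with hH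
  have hsup : H ⊔ N = ⊤ := by
    rw [eq_top_iff, ← ht, closure_le]
    rintro _ ⟨o, rfl⟩
    cases o with
    | none => rw [hta]; exact mem_sup_right ha
    | some i => exact mem_sup_left (subset_closure ⟨some i, by simp, rfl⟩)
  have hw : w ∈ H ⊔ N := by rw [hsup]; trivial
  obtain ⟨u, hu, c, hc, rfl⟩ := mem_sup_of_normal_right.1 hw
  have hconj : u * c * a * (u * c)⁻¹ = u * a * u⁻¹ := by
    have h1 : c * a = a * c := hcomm c hc a ha
    calc u * c * a * (u * c)⁻¹ = u * (c * a) * c⁻¹ * u⁻¹ := by group
      _ = u * a * u⁻¹ := by rw [h1]; group
  rw [hconj] at hz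
  set a' := u * a * u⁻¹ with ha'
  have ha'N : a' ∈ N := hN.conj_mem a ha u
  have hzN : z ∈ N := by
    rcases hz with rfl | rfl
    · exact ha'N
    · exact N.inv_mem ha'N
  -- first move
  let t1 := Function.update t none a'
  have m1 : NE t t1 := by
    have := NE.move t none u u⁻¹ hu (inv_mem hu)
    rw [hta] at this
    exact this
  -- second move
  let t2 := Function.update t1 (some i) (t (some i) * z)
  have m2 : NE t1 t2 := by
    have hz1 : z ∈ closure (t1 '' {j | j ≠ some i}) := by
      have h1 : a' ∈ closure (t1 '' {j | j ≠ some i}) :=
        subset_closure ⟨none, by simp, by simp [t1]⟩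
      rcases hz with rfl | rfl
      · exact h1
      · exact inv_mem h1
    have := NE.move t1 (some i) 1 z (one_mem _) hz1
    have h2 : t1 (some i) = t (some i) := by simp [t1]
    rw [one_mul, h2] at this
    exact this
  -- third move
  obtain ⟨u', hu', hu'm⟩ : ∃ u' ∈ closure (t2 '' {j | j ≠ none}), u * u' ∈ N := by
    have h1 : (closure (t2 '' {j | j ≠ none})).map (QuotientGroup.mk' N) =
        H.map (QuotientGroup.mk' N) := by
      rw [hH, MonoidHom.map_closure, MonoidHom.map_closure, ← Set.image_comp, ← Set.image_comp]
      congr 1
      apply Set.image_congr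
      intro o ho
      cases o with
      | none => exact absurd rfl ho
      | some j =>
        by_cases hj : j = i
        · subst hj
          simp only [t2, Function.comp_apply, Function.update_self, QuotientGroup.mk'_apply,
            QuotientGroup.mk_mul]
          rw [(QuotientGroup.eq_one_iff z).2 hzN, mul_one]
        · have hj' : (some j : Option ι) ≠ some i := by simpa using hj
          simp [t2, t1, Function.update_of_ne hj']
    have h2 : (QuotientGroup.mk' N) u⁻¹ ∈ H.map (QuotientGroup.mk' N) := ⟨u⁻¹, inv_mem hu, rfl⟩
    rw [← h1] at h2
    obtain ⟨u', hu', h3⟩ := h2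
    refine ⟨u', hu', ?_⟩
    rw [← QuotientGroup.eq_one_iff, QuotientGroup.mk_mul]
    have h4 : (QuotientGroup.mk u' : G ⧸ N) = QuotientGroup.mk u⁻¹ := h3
    rw [h4, ← QuotientGroup.mk_mul, mul_inv_cancel, QuotientGroup.mk_one]
  let t3 := Function.update t2 none (u' * a' * u'⁻¹)
  have m3 : NE t2 t3 := by
    have := NE.move t2 none u' u'⁻¹ hu' (inv_mem hu')
    have h2 : t2 none = a' := by simp [t2, t1]
    rw [h2] at this
    exact this
  have hback : u' * a' * u'⁻¹ = a := by
    have h1 : (u * u') * a' = a' * (u * u') := hcomm _ hu'm _ ha'N
    calc u' * a' * u'⁻¹ = u⁻¹ * ((u * u') * a') * (u * u')⁻¹ * u := by group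
      _ = u⁻¹ * a' * u := by rw [h1]; group
      _ = a := by rw [ha']; group
  have hfin : t3 = Function.update t (some i) (t (some i) * z) := by
    funext o
    cases o with
    | none => simp [t3, hback, hta]
    | some j =>
      by_cases hj : j = i
      · subst hj
        simp [t3, t2]
      · have hj' : (some j : Option ι) ≠ some i := by simpa using hj
        simp [t3, t2, t1, Function.update_of_ne hj']
  rw [← hfin]
  exact (m1.trans m2).trans m3

include hcomm ha in
/-- Multiply the entry `some i` by any element of `N`. -/
lemma mul_move (hnc : N ≤ normalClosure {a}) (b : G) (hb : b ∈ N)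
    (t : Option ι → G) (ht : closure (Set.range t) = ⊤) (hta : t none = a) (i : ι) :
    NE t (Function.update t (some i) (t (some i) * b)) := by
  have key : ∀ b ∈ normalClosure {a},
      (∀ t : Option ι → G, closure (Set.range t) = ⊤ → t none = a → ∀ i : ι,
        NE t (Function.update t (some i) (t (some i) * b))) ∧
      (∀ t : Option ι → G, closure (Set.range t) = ⊤ → t none = a → ∀ i : ι,
        NE t (Function.update t (some i) (t (some i) * b⁻¹))) := by
    intro b hb
    refine closure_induction (p := fun b _ =>
      (∀ t : Option ι → G, closure (Set.range t) = ⊤ → t none = a → ∀ i : ι,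
        NE t (Function.update t (some i) (t (some i) * b))) ∧
      (∀ t : Option ι → G, closure (Set.range t) = ⊤ → t none = a → ∀ i : ι,
        NE t (Function.update t (some i) (t (some i) * b⁻¹)))) ?_ ?_ ?_ ?_ hb
    · intro x hx
      obtain ⟨a₀, ha₀, hconj⟩ := Group.mem_conjugatesOfSet_iff.1 hx
      rw [Set.mem_singleton_iff] at ha₀
      subst ha₀
      obtain ⟨w, hw⟩ := isConj_iff.1 hconj
      exact ⟨fun t ht hta i => conj_move N hcomm a₀ ha t ht hta i w x (Or.inl hw.symm),
        fun t ht hta i => conj_move N hcomm a₀ ha t ht hta i w x⁻¹ (Or.inr (by rw [hw]))⟩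
    · constructor
      · intro t ht hta i
        rw [mul_one, Function.update_eq_self]
        exact NE.refl t
      · intro t ht hta i
        rw [inv_one, mul_one, Function.update_eq_self]
        exact NE.refl t
    · rintro x y - - ⟨hx, hx'⟩ ⟨hy, hy'⟩
      constructor
      · intro t ht hta i
        have h1 := hx t ht hta i
        have h2 := hy _ (h1.generates ht) (by simpa using hta) i
        rw [Function.update_self, Function.update_idem, mul_assoc] at h2
        exact h1.trans h2
      · intro t ht hta i
        have h1 := hy' t ht hta i
        have h2 := hx' _ (h1.generates ht) (by simpa using hta) i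
        rw [Function.update_self, Function.update_idem, mul_assoc, ← mul_inv_rev] at h2
        exact h1.trans h2
    · rintro x - ⟨hx, hx'⟩
      exact ⟨hx', by simpa using hx⟩
  exact (key b (hnc hb)).1 t ht hta i

end step

/-- Dunwoody's theorem: in a finite soluble group which is generated by a tuple `g`, every
generating tuple with one more entry is Nielsen equivalent to `g` with the entry `1` appended. -/
theorem dunwoody : ∀ (n : ℕ) (G : Type u) [Group G] [Finite G] [Group.IsSolvable G],
    Nat.card G = n → ∀ g : ι → G, closure (Set.range g) = ⊤ →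
      ∀ h : Option ι → G, closure (Set.range h) = ⊤ → NE h (ext1 g) := by
  intro n
  induction n using Nat.strong_induction_on with
  | _ n ih =>
    intro G _ _ _ hn g hg h hh
    by_cases hnt : Nontrivial G
    swap
    · rw [not_nontrivial_iff_subsingleton] at hnt
      have : h = ext1 g := by
        funext o
        exact Subsingleton.elim _ _
      rw [this]
      exact NE.refl _
    -- a minimal normal subgroup
    obtain ⟨N, ⟨hN, hNbot⟩, hmin⟩ := (wellFounded_lt (α := Subgroup G)).has_min
      {N : Subgroup G | N.Normal ∧ N ≠ ⊥} ⟨⊤, inferInstance, top_ne_bot⟩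
    have hcomm : ∀ x ∈ N, ∀ y ∈ N, x * y = y * x := by
      have hlt := Group.IsSolvable.commutator_lt_of_ne_bot hNbot
      have hbot : ⁅N, N⁆ = ⊥ := by
        by_contra hne
        exact hmin ⁅N, N⁆ ⟨commutator_normal N N, hne⟩ hlt
      intro x hx y hy
      have := commutator_mem_commutator hx hy
      rw [hbot, mem_bot] at this
      exact commutatorElement_eq_one_iff_mul_comm.1 this
    have hnc : ∀ a ∈ N, a ≠ 1 → N ≤ normalClosure {a} := by
      intro a ha ha1
      have hle : normalClosure {a} ≤ N := normalClosure_le_normal (by simpa using ha)
      have hne : normalClosure {a} ≠ ⊥ := by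
        intro h
        have : a ∈ normalClosure {a} := subset_normalClosure rfl
        rw [h, mem_bot] at this
        exact ha1 this
      by_contra hcon
      exact hmin _ ⟨normalClosure_normal, hne⟩ (lt_of_le_not_ge hle hcon)
    -- induction hypothesis for the quotient
    have hcard : Nat.card (G ⧸ N) < n := by
      rw [← hn, card_eq_card_quotient_mul_card_subgroup N]
      have h1 : 1 < Nat.card N := (one_lt_card_iff_ne_bot N).2 hNbot
      have h2 : 0 < Nat.card (G ⧸ N) := Nat.card_pos
      exact lt_mul_of_one_lt_right h2 h1
    have hgen : ∀ {κ : Type} (x : κ → G), closure (Set.range x) = ⊤ →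
        closure (Set.range fun i => (QuotientGroup.mk (x i) : G ⧸ N)) = ⊤ := by
      intro κ x hx
      have := congrArg (Subgroup.map (QuotientGroup.mk' N)) hx
      rw [MonoidHom.map_closure, Subgroup.map_top_of_surjective _ (QuotientGroup.mk'_surjective N),
        ← Set.range_comp] at this
      exact this
    obtain ⟨α, hα⟩ := ih _ hcard (G ⧸ N) rfl (fun i => (QuotientGroup.mk (g i) : G ⧸ N))
      (hgen g hg) (fun o => (QuotientGroup.mk (h o) : G ⧸ N)) (hgen h hh)
    let h' : Option ι → G := fun o => FreeGroup.lift h (α (FreeGroup.of o))
    have hh' : NE h h' := ⟨α, by ext o; simp [h']⟩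
    have hmk : ∀ o, (QuotientGroup.mk (h' o) : G ⧸ N) =
        ext1 (fun i => (QuotientGroup.mk (g i) : G ⧸ N)) o := by
      intro o
      have h1 := DFunLike.congr_fun hα (FreeGroup.of o)
      rw [FreeGroup.lift_apply_of] at h1
      rw [h1]
      have h2 : (QuotientGroup.mk' N).comp (FreeGroup.lift h) =
          FreeGroup.lift (fun o => (QuotientGroup.mk (h o) : G ⧸ N)) := by
        ext o
        simp
      exact DFunLike.congr_fun h2 (α (FreeGroup.of o))
    have hgh' : closure (Set.range h') = ⊤ := hh'.generates hh
    -- make the last entry nontrivial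
    obtain ⟨t, ht, htg, htN, ht1⟩ : ∃ t : Option ι → G, NE h t ∧
        (∀ i, (t (some i))⁻¹ * g i ∈ N) ∧ t none ∈ N ∧ t none ≠ 1 := by
      have hs : ∀ i, (h' (some i))⁻¹ * g i ∈ N := by
        intro i
        rw [← QuotientGroup.eq]
        exact hmk (some i)
      have hnone : h' none ∈ N := by
        rw [← QuotientGroup.eq_one_iff]
        exact hmk none
      by_cases h1 : h' none = 1
      · obtain ⟨b, hb, hb1⟩ : ∃ b ∈ N, b ≠ 1 := by
          by_contra hcon
          push Not at hcon
          exact hNbot ((eq_bot_iff_forall N).2 hcon)
        have htop : closure (h' '' {j | j ≠ none}) = ⊤ := by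
          rw [eq_top_iff, ← hgh', closure_le]
          rintro _ ⟨o, rfl⟩
          cases o with
          | none => rw [h1]; exact one_mem _
          | some i => exact subset_closure ⟨some i, by simp, rfl⟩
        have hmove := NE.move h' none 1 b (one_mem _) (by rw [htop]; trivial)
        refine ⟨_, hh'.trans hmove, ?_, ?_, ?_⟩
        · intro i
          simpa using hs i
        · simpa [h1] using hb
        · simpa [h1] using hb1
      · exact ⟨h', hh', hs, hnone, h1⟩
    have htgen : closure (Set.range t) = ⊤ := ht.generates hh
    -- correct the other entries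
    have key : ∀ s : Finset ι, NE t (fun o => o.elim (t none)
        (fun i => if i ∈ s then g i else t (some i))) := by
      intro s
      induction s using Finset.induction_on with
      | empty =>
        have : (fun o : Option ι => o.elim (t none)
            (fun i => if i ∈ (∅ : Finset ι) then g i else t (some i))) = t := by
          funext o
          cases o <;> simp
        rw [this]
        exact NE.refl t
      | insert i s his ih' =>
        have h1 := mul_move N hcomm (t none) htN (hnc _ htN ht1) _ (htg i) _
          (ih'.generates htgen) rfl i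
        refine ih'.trans ?_
        convert h1 using 1
        funext o
        cases o with
        | none => simp
        | some j =>
          by_cases hj : j = i
          · subst hj
            simp [his]
          · have hj' : (some j : Option ι) ≠ some i := by simpa using hj
            simp [Function.update_of_ne hj', hj]
    have h1 := key Finset.univ
    have h2 : (fun o : Option ι => o.elim (t none)
        (fun i => if i ∈ (Finset.univ : Finset ι) then g i else t (some i))) =
        fun o => o.elim (t none) g := by
      funext o
      cases o <;> simp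
    rw [h2] at h1
    refine (ht.trans h1).trans ?_
    have h3 := NE.move (fun o : Option ι => o.elim (t none) g) none 1 (t none)⁻¹ (one_mem _) (by
      rw [image_ne_none]
      have : (Set.range fun i => (some i : Option ι).elim (t none) g) = Set.range g := rfl
      rw [this, hg]
      trivial)
    convert h3 using 1
    funext o
    cases o with
    | none => simp [ext1]
    | some i => simp [ext1]

end RelNum
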