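import Pool.Agent.H1.Rel.Count

/-!
# Bases of finite soluble groups
-/

open Subgroup

namespace RelNum

lemma range_single {ι : Type*} [Subsingleton ι] (i₀ : ι) {A : Type*} (Z : ι → A) :
    Set.range Z = {Z i₀} := by
  ext a
  constructor
  · rintro ⟨i, rfl⟩
    rw [Subsingleton.elim i i₀]; rfl
  · rintro rfl
    exact ⟨i₀, rfl⟩

/-- For cyclic groups the kernel does not depend on the generator. -/
lemma ker_eq_of_subsingleton {G : Type*} [Group G] {ι : Type} [Subsingleton ι] (i₀ : ι)
    (X M : ι → G) (hX : closure (Set.range X) = ⊤) (hM : closure (Set.range M) = ⊤) :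
    (FreeGroup.lift X).ker = (FreeGroup.lift M).ker := by
  have hw : ∀ w : FreeGroup ι, ∃ k : ℤ, FreeGroup.of i₀ ^ k = w := by
    intro w
    have h1 : w ∈ closure (Set.range (FreeGroup.of : ι → FreeGroup ι)) := by
      rw [FreeGroup.closure_range_of]; trivial
    rw [range_single i₀ FreeGroup.of, ← zpowers_eq_closure] at h1
    exact mem_zpowers_iff.1 h1
  have hord : ∀ Z : ι → G, closure (Set.range Z) = ⊤ → orderOf (Z i₀) = Nat.card G := by
    intro Z hZ
    rw [range_single i₀ Z, ← zpowers_eq_closure] at hZ
    rw [← Nat.card_zpowers, hZ, card_top]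
  ext w
  obtain ⟨k, rfl⟩ := hw w
  rw [MonoidHom.mem_ker, MonoidHom.mem_ker, map_zpow, map_zpow, FreeGroup.lift_apply_of,
    FreeGroup.lift_apply_of, ← orderOf_dvd_iff_zpow_eq_one, ← orderOf_dvd_iff_zpow_eq_one,
    hord X hX, hord M hM]

/-- Finite groups are finitely presented. -/
lemma relNum_ne_top {G : Type*} [Group G] [Finite G] {ι : Type} [Finite ι] (X : ι → G) :
    relNum X ≠ ⊤ := by
  have hfi : (FreeGroup.lift X).ker.FiniteIndex := inferInstance
  have hfg : Group.FG (FreeGroup.lift X).ker := inferInstance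
  obtain ⟨S, hS⟩ := (Group.fg_iff_subgroup_fg _).1 hfg
  have hn : normalClosure (S : Set (FreeGroup ι)) = (FreeGroup.lift X).ker := by
    apply le_antisymm
    · apply normalClosure_le_normal
      rw [← hS]
      exact subset_closure
    · rw [← hS]
      exact closure_le_normalClosure
  refine ne_top_of_le_ne_top ?_ (iInf₂_le (S : Set (FreeGroup ι)) hn)
  exact S.finite_toSet.encard_lt_top.ne

theorem main (G : Type*) [Group G] [Finite G] [Nontrivial G] (hG : Group.IsSolvable G)
    (M : Fin (Group.rank G) → G) (hM : IsBasis G M) :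
    relMin G ≠ ⊤ ∧ relNum M ≤ relMin G + 1 ∧ relNum M + 1 ≤ Group.rank G + relMin G := by
  have h1 : relNum M ≤ relMin G + 1 := by
    unfold relMin
    rw [ENat.iInf_add]
    refine le_iInf fun X => ?_
    rw [ENat.iInf_add]
    refine le_iInf fun hX => ?_
    apply relNum_le_of_NE
    apply dunwoody _ G rfl X hX
    rw [eq_top_iff, ← (show closure (Set.range M) = ⊤ from hM), closure_le]
    rintro _ ⟨i, rfl⟩
    exact subset_closure ⟨some i, rfl⟩
  refine ⟨?_, h1, ?_⟩
  · exact ne_top_of_le_ne_top (relNum_ne_top M) (iInf₂_le M hM)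
  · have hpos : Group.rank G ≠ 0 := by
      intro h0
      have : IsEmpty (Fin (Group.rank G)) := by rw [h0]; infer_instance
      have h2 : closure (Set.range M) = ⊤ := hM
      rw [Set.range_eq_empty, Subgroup.closure_empty] at h2
      exact bot_ne_top h2
    by_cases h2 : Group.rank G = 1
    · have hs : Subsingleton (Fin (Group.rank G)) := by rw [h2]; infer_instance
      have h3 : relNum M ≤ relMin G := by
        unfold relMin
        refine le_iInf fun X => le_iInf fun hX => ?_
        have hk := ker_eq_of_subsingleton ⟨0, Nat.pos_of_ne_zero hpos⟩ X M hX hM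
        unfold relNum
        rw [hk]
      calc relNum M + 1 ≤ relMin G + 1 := by gcongr
        _ = Group.rank G + relMin G := by rw [h2, add_comm]; rfl
    · have h3 : (2 : ℕ∞) ≤ (Group.rank G : ℕ∞) := by
        have : 2 ≤ Group.rank G := by omega
        exact_mod_cast this
      calc relNum M + 1 ≤ relMin G + 1 + 1 := by gcongr
        _ = 2 + relMin G := by rw [add_assoc, add_comm]; norm_num
        _ ≤ Group.rank G + relMin G := by gcongr

end RelNum
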