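import Mathlib

/-!
# Nielsen equivalence of generating tuples
-/

open Subgroup

namespace RelNum

variable {G : Type*} [Group G] {κ : Type*}

/-- Nielsen equivalence of tuples indexed by `κ`: they differ by an automorphism of the free
group. -/
def NE (x y : κ → G) : Prop :=
  ∃ α : FreeGroup κ ≃* FreeGroup κ, FreeGroup.lift y = (FreeGroup.lift x).comp α.toMonoidHom

lemma NE.refl (x : κ → G) : NE x x := ⟨MulEquiv.refl _, by ext; rfl⟩

lemma NE.symm {x y : κ → G} (h : NE x y) : NE y x := by
  obtain ⟨α, hα⟩ := h
  refine ⟨α.symm, ?_⟩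
  rw [hα]
  ext i
  simp

lemma NE.trans {x y z : κ → G} (h : NE x y) (h' : NE y z) : NE x z := by
  obtain ⟨α, hα⟩ := h
  obtain ⟨β, hβ⟩ := h'
  refine ⟨β.trans α, ?_⟩
  rw [hβ, hα]
  ext i
  simp

lemma range_lift_eq (x : κ → G) : (FreeGroup.lift x).range = closure (Set.range x) :=
  FreeGroup.range_lift_eq_closure

lemma NE.generates {x y : κ → G} (h : NE x y) (hx : closure (Set.range x) = ⊤) :
    closure (Set.range y) = ⊤ := by
  obtain ⟨α, hα⟩ := h
  rw [← range_lift_eq] at hx ⊢
  rw [hα, MonoidHom.range_eq_top]
  exact (MonoidHom.range_eq_top.1 hx).comp α.surjective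

variable [DecidableEq κ]

/-- A general move: change one entry by words in the other entries, on both sides. -/
lemma NE.move (x : κ → G) (i : κ) (u v : G)
    (hu : u ∈ closure (x '' {j | j ≠ i})) (hv : v ∈ closure (x '' {j | j ≠ i})) :
    NE x (Function.update x i (u * x i * v)) := by
  -- words
  have hmap : closure (x '' {j | j ≠ i}) =
      (closure (FreeGroup.of '' {j : κ | j ≠ i})).map (FreeGroup.lift x) := by
    rw [MonoidHom.map_closure, ← Set.image_comp]
    congr 1
    ext z
    simp
  rw [hmap] at hu hv
  obtain ⟨U, hU, rfl⟩ := hu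
  obtain ⟨V, hV, rfl⟩ := hv
  have key : ∀ A B : FreeGroup κ, ∀ W ∈ closure (FreeGroup.of '' {j : κ | j ≠ i}),
      FreeGroup.lift (Function.update FreeGroup.of i (A * FreeGroup.of i * B)) W = W := by
    intro A B W hW
    have : closure (FreeGroup.of '' {j : κ | j ≠ i}) ≤
        (FreeGroup.lift (Function.update FreeGroup.of i (A * FreeGroup.of i * B))).eqLocus
          (MonoidHom.id _) := by
      rw [closure_le]
      rintro _ ⟨j, hj, rfl⟩
      have hj' : j ≠ i := hj
      change FreeGroup.lift (Function.update FreeGroup.of i (A * FreeGroup.of i * B))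
        (FreeGroup.of j) = FreeGroup.of j
      simp [Function.update_of_ne hj']
    exact this hW
  let f : FreeGroup κ →* FreeGroup κ :=
    FreeGroup.lift (Function.update FreeGroup.of i (U * FreeGroup.of i * V))
  let g : FreeGroup κ →* FreeGroup κ :=
    FreeGroup.lift (Function.update FreeGroup.of i (U⁻¹ * FreeGroup.of i * V⁻¹))
  have hfU : f U = U := key _ _ U hU
  have hfV : f V = V := key _ _ V hV
  have hgU : g U = U := key _ _ U hU
  have hgV : g V = V := key _ _ V hV
  have hfg : f.comp g = MonoidHom.id _ := by
    ext j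
    by_cases hj : j = i
    · subst hj
      simp only [g, MonoidHom.comp_apply, FreeGroup.lift_apply_of, Function.update_self, map_mul,
        map_inv, hfU, hfV, MonoidHom.id_apply]
      simp only [f, FreeGroup.lift_apply_of, Function.update_self]
      group
    · simp [g, f, Function.update_of_ne hj]
  have hgf : g.comp f = MonoidHom.id _ := by
    ext j
    by_cases hj : j = i
    · subst hj
      simp only [f, MonoidHom.comp_apply, FreeGroup.lift_apply_of, Function.update_self, map_mul,
        hgU, hgV, MonoidHom.id_apply]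
      simp only [g, FreeGroup.lift_apply_of, Function.update_self]
      group
    · simp [g, f, Function.update_of_ne hj]
  refine ⟨MonoidHom.toMulEquiv f g hgf hfg, ?_⟩
  ext j
  by_cases hj : j = i
  · subst hj
    simp [f]
  · simp [f, Function.update_of_ne hj]

end RelNum
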